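import Pool.Agent.SZT.StmtsA

set_option autoImplicit false

namespace Pool.Agent.SZT.H53

open Polynomial
open Pool.Agent.MNT (QU vC)

theorem ptb (h1 : UvlStmt) (h2 : FvlStmt) : PtbStmt := by
  intro E _ v c₀ e hQ he θ a N U W hθ hU hS hG ρ hρ j i hne hnear hfar
  set r := v (a j - θ i) with hr
  have hr0 : 0 < r := v.pos (sub_ne_zero.mpr (hne i))
  have hN : (0 : ℝ) < (N : ℝ) := by
    have := hS.pos
    exact_mod_cast this
  have hcard : (Multiset.card U.roots : ℝ) = 2 * (N : ℝ) := by
    have : Multiset.card U.roots = 2 * N := by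
      rw [← hS.deg]
      exact hU.natDegree_eq_card_roots.symm
    rw [this]; push_cast; ring
  have hHm := hG i r hr0 (Or.inr (fun k => by
    have h3 : Real.exp c₀ * v (θ k - θ i) ≤ Real.exp c₀ * ρ :=
      mul_le_mul_of_nonneg_left (hρ k i) (Real.exp_pos _).le
    linarith))
  unfold Hm at hHm
  rw [hcard] at hHm
  have hpair : Real.log (max r (v (a 0 - θ i))) + Real.log (max r (v (a 1 - θ i)))
      = Real.log r + Real.log (max r (v (a (1 - j) - θ i))) := by
    have hj : max r (v (a j - θ i)) = r := by rw [← hr]; exact max_self r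
    fin_cases j
    · simp only [Fin.zero_eta, Fin.isValue, sub_zero] at hj ⊢
      rw [hj]
    · simp only [Fin.mk_one, Fin.isValue, sub_self] at hj ⊢
      rw [hj, add_comm]
  rw [hpair] at hHm
  have h3 := h1 E v c₀ hQ U hU hS.lead (a j) (θ i) (hne i) (hS.ev j)
  rw [hcard, ← hr] at h3
  have h4 := (h2 E v c₀ hQ θ hθ (a j) i hne hnear).1
  rw [← hr] at h4
  have h5 : 1 / (2 * (N : ℝ)) * Real.log (v (U.eval (a j)))
      ≤ c₀ + 1 / 2 * (Real.log r + Real.log (max r (v (a (1 - j) - θ i))) + e) := by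
    rw [one_div, inv_mul_le_iff₀ (by positivity)]
    nlinarith [h3, hHm]
  linarith

end Pool.Agent.SZT.H53
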